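import Pool.Agent.Lib.MP_182bbb_co.TT.Iface

/-! Module BLOW (helper70). -/

open Finset

namespace MP_182bbb_co.TT.H70

open MP_182bbb_co.H5 MP_182bbb_co.TT

/-- power mean -/
theorem pm {W : Type} [Fintype W] (f : W → ℝ) (hf : ∀ w, 0 ≤ f w) (γ : ℝ) (hγ : 0 ≤ γ) (a : ℕ)
    (h : γ * Fintype.card W ≤ ∑ w, f w) : γ ^ a * Fintype.card W ≤ ∑ w, f w ^ a := by
  cases a with
  | zero => simp
  | succ a =>
    by_cases hW : (Fintype.card W : ℝ) = 0
    · rw [hW, mul_zero]
      exact sum_nonneg (fun w _ => pow_nonneg (hf w) _)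
    · have hW' : 0 < (Fintype.card W : ℝ) := lt_of_le_of_ne (Nat.cast_nonneg _) (Ne.symm hW)
      have h1 := inner_le_nnorm_mul_nnorm_aux f hf a
      have h2 : (γ * Fintype.card W) ^ (a + 1) ≤ (∑ w, f w) ^ (a + 1) :=
        pow_le_pow_left₀ (by positivity) h _
      have h3 : γ ^ (a + 1) * Fintype.card W = (γ * Fintype.card W) ^ (a + 1) /
          (Fintype.card W : ℝ) ^ a := by
        rw [eq_div_iff (by positivity), mul_pow, pow_succ (Fintype.card W : ℝ) a]
        ring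
      rw [h3, div_le_iff₀ (by positivity)]
      calc _ ≤ _ := h2
        _ ≤ _ := h1
where
  inner_le_nnorm_mul_nnorm_aux {W : Type} [Fintype W] (f : W → ℝ) (hf : ∀ w, 0 ≤ f w) (a : ℕ) :
      (∑ w, f w) ^ (a + 1) ≤ (∑ w, f w ^ (a + 1)) * (Fintype.card W : ℝ) ^ a := by
    have := pow_sum_div_card_le_sum_pow (s := (univ : Finset W)) (f := f) (n := a)
      (fun w _ => hf w)
    by_cases hW : (Fintype.card W : ℝ) = 0
    · have hW' : IsEmpty W := Fintype.card_eq_zero_iff.1 (by exact_mod_cast hW)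
      simp
    · rw [card_univ, div_le_iff₀ (by positivity)] at this
      exact this

/-- one blow-up step -/
theorem blow_step {V W A : Type} [Fintype V] [Fintype W] [Fintype A] (R : V → W → Prop) (γ : ℝ)
    (hγ : 0 ≤ γ)
    (h : γ * Fintype.card V * Fintype.card W ≤ Nat.card {p : V × W // R p.1 p.2}) :
    γ ^ Fintype.card A * (Fintype.card V : ℝ) ^ Fintype.card A * Fintype.card W ≤
      Nat.card {p : (A → V) × W // ∀ i, R (p.1 i) p.2} := by
  classical
  have e1 : (Nat.card {p : V × W // R p.1 p.2} : ℝ) =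
      ∑ w : W, (Fintype.card {v : V // R v w} : ℝ) := by
    have e : {p : V × W // R p.1 p.2} ≃ (Σ w : W, {v : V // R v w}) :=
      ⟨fun p => ⟨p.1.2, p.1.1, p.2⟩, fun s => ⟨(s.2.1, s.1), s.2.2⟩, fun _ => rfl, fun _ => rfl⟩
    rw [Nat.card_congr e, Nat.card_eq_fintype_card, Fintype.card_sigma]
    push_cast
    rfl
  have e2 : (Nat.card {p : (A → V) × W // ∀ i, R (p.1 i) p.2} : ℝ) =
      ∑ w : W, (Fintype.card {v : V // R v w} : ℝ) ^ Fintype.card A := by
    have e : {p : (A → V) × W // ∀ i, R (p.1 i) p.2} ≃ (Σ w : W, (A → {v : V // R v w})) :=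
      ⟨fun p => ⟨p.1.2, fun i => ⟨p.1.1 i, p.2 i⟩⟩, fun s => ⟨(fun i => (s.2 i).1, s.1),
        fun i => (s.2 i).2⟩, fun _ => rfl, fun _ => rfl⟩
    rw [Nat.card_congr e, Nat.card_eq_fintype_card, Fintype.card_sigma]
    push_cast
    apply sum_congr rfl
    intro w _
    rw [Fintype.card_fun]
    push_cast
    rfl
  rw [e1] at h
  rw [e2, ← mul_pow]
  exact pm _ (fun w => Nat.cast_nonneg _) _ (by positivity) _ h

open Classical in
theorem blow : BLOW_S := by
  intro m δ hδ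
  -- exponents bounded by m
  refine ⟨(min δ 1) ^ (m * m * m), by positivity, ?_⟩
  intro V _ _ cl Tr hTr
  set δ' := min δ 1 with hδ'
  have hδ'0 : 0 < δ' := by positivity
  have hδ'1 : δ' ≤ 1 := min_le_right _ _
  set n : ℝ := (Fintype.card V : ℝ) with hn
  have hn0 : 0 ≤ n := Nat.cast_nonneg _
  set A0 := {i : Fin m // cl i = 0}
  set A1 := {i : Fin m // cl i = 1}
  set A2 := {i : Fin m // cl i = 2}
  set A3 := {i : Fin m // cl i ≠ 0 ∧ cl i ≠ 1 ∧ cl i ≠ 2}
  -- start
  have s0 : δ' * Fintype.card V * Fintype.card (V × V) ≤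
      Nat.card {p : V × (V × V) // (fun y w => Tr w.1 w.2 y) p.1 p.2} := by
    have e : {p : V × (V × V) // (fun y w => Tr w.1 w.2 y) p.1 p.2} ≃
        {p : V × V × V // Tr p.1 p.2.1 p.2.2} :=
      ⟨fun p => ⟨(p.1.2.1, p.1.2.2, p.1.1), p.2⟩, fun p => ⟨(p.1.2.2, (p.1.1, p.1.2.1)), p.2⟩,
        fun _ => rfl, fun _ => rfl⟩
    rw [Nat.card_congr e, Nat.card_eq_fintype_card, Fintype.card_subtype, Fintype.card_prod]
    unfold cnt3 at hTr
    push_cast
    calc δ' * n * (n * n) ≤ δ * n ^ 3 := by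
          have : δ' * n * (n * n) = δ' * n ^ 3 := by ring
          rw [this]
          exact mul_le_mul_of_nonneg_right (min_le_left _ _) (by positivity)
      _ ≤ _ := hTr
  have s1 := blow_step (A := A2) (fun y (w : V × V) => Tr w.1 w.2 y) δ' hδ'0.le s0
  set a2 := Fintype.card A2 with ha2
  set a1 := Fintype.card A1 with ha1
  set a0 := Fintype.card A0 with ha0
  set a3 := Fintype.card A3 with ha3
  have s1' : δ' ^ a2 * Fintype.card V * Fintype.card (V × (A2 → V)) ≤
      Nat.card {p : V × (V × (A2 → V)) //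
        (fun x' (w : V × (A2 → V)) => ∀ l, Tr w.1 x' (w.2 l)) p.1 p.2} := by
    have e : {p : V × (V × (A2 → V)) //
        (fun x' (w : V × (A2 → V)) => ∀ l, Tr w.1 x' (w.2 l)) p.1 p.2} ≃
        {p : (A2 → V) × (V × V) // ∀ i, (fun y (w : V × V) => Tr w.1 w.2 y) (p.1 i) p.2} :=
      ⟨fun p => ⟨(p.1.2.2, (p.1.2.1, p.1.1)), p.2⟩, fun p => ⟨(p.1.2.2, (p.1.2.1, p.1.1)), p.2⟩,
        fun _ => rfl, fun _ => rfl⟩
    rw [Nat.card_congr e]
    refine le_trans (le_of_eq ?_) s1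
    rw [Fintype.card_prod, Fintype.card_prod, Fintype.card_fun]
    push_cast
    ring
  have s2 := blow_step (A := A1) (fun x' (w : V × (A2 → V)) => ∀ l, Tr w.1 x' (w.2 l))
    (δ' ^ a2) (by positivity) s1'
  have s2' : (δ' ^ a2) ^ a1 * Fintype.card V * Fintype.card ((A1 → V) × (A2 → V)) ≤
      Nat.card {p : V × ((A1 → V) × (A2 → V)) //
        (fun x (w : (A1 → V) × (A2 → V)) => ∀ j l, Tr x (w.1 j) (w.2 l)) p.1 p.2} := by
    have e : {p : V × ((A1 → V) × (A2 → V)) //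
        (fun x (w : (A1 → V) × (A2 → V)) => ∀ j l, Tr x (w.1 j) (w.2 l)) p.1 p.2} ≃
        {p : (A1 → V) × (V × (A2 → V)) // ∀ i,
          (fun x' (w : V × (A2 → V)) => ∀ l, Tr w.1 x' (w.2 l)) (p.1 i) p.2} :=
      ⟨fun p => ⟨(p.1.2.1, (p.1.1, p.1.2.2)), p.2⟩, fun p => ⟨(p.1.2.1, (p.1.1, p.1.2.2)), p.2⟩,
        fun _ => rfl, fun _ => rfl⟩
    rw [Nat.card_congr e]
    refine le_trans (le_of_eq ?_) s2
    rw [Fintype.card_prod, Fintype.card_prod, Fintype.card_fun, Fintype.card_fun]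
    push_cast
    ring
  have s3 := blow_step (A := A0)
    (fun x (w : (A1 → V) × (A2 → V)) => ∀ j l, Tr x (w.1 j) (w.2 l))
    ((δ' ^ a2) ^ a1) (by positivity) s2'
  -- number of coordinates
  have hcard : a0 + a1 + a2 + a3 = m := by
    have h0 : a0 = ∑ i : Fin m, if cl i = 0 then 1 else 0 := by
      rw [ha0, Fintype.card_subtype, card_filter]
    have h1 : a1 = ∑ i : Fin m, if cl i = 1 then 1 else 0 := by
      rw [ha1, Fintype.card_subtype, card_filter]
    have h2 : a2 = ∑ i : Fin m, if cl i = 2 then 1 else 0 := by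
      rw [ha2, Fintype.card_subtype, card_filter]
    have h3 : a3 = ∑ i : Fin m, if cl i ≠ 0 ∧ cl i ≠ 1 ∧ cl i ≠ 2 then 1 else 0 := by
      rw [ha3, Fintype.card_subtype, card_filter]
    rw [h0, h1, h2, h3, ← sum_add_distrib, ← sum_add_distrib, ← sum_add_distrib]
    have : ∀ i : Fin m, ((((if cl i = 0 then 1 else 0) + if cl i = 1 then 1 else 0) +
        if cl i = 2 then 1 else 0) + if cl i ≠ 0 ∧ cl i ≠ 1 ∧ cl i ≠ 2 then 1 else 0) = 1 := by
      intro i
      by_cases h0 : cl i = 0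
      · simp [h0]
      · by_cases h1 : cl i = 1
        · simp [h1]
        · by_cases h2 : cl i = 2
          · simp [h2]
          · simp [h0, h1, h2]
    rw [sum_congr rfl (fun i _ => this i)]
    simp
  -- the injection
  have hinj : Nat.card ({p : (A0 → V) × ((A1 → V) × (A2 → V)) // ∀ i,
      (fun x (w : (A1 → V) × (A2 → V)) => ∀ j l, Tr x (w.1 j) (w.2 l)) (p.1 i) p.2} × (A3 → V)) ≤
      ((univ : Finset (Fin m → V)).filter (fun ω =>
        ∀ i j l, cl i = 0 → cl j = 1 → cl l = 2 → Tr (ω i) (ω j) (ω l))).card := by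
    rw [← Fintype.card_subtype, ← Nat.card_eq_fintype_card]
    apply Nat.card_le_card_of_injective (fun s => ⟨fun i =>
      if h0 : cl i = 0 then s.1.1.1 ⟨i, h0⟩ else if h1 : cl i = 1 then s.1.1.2.1 ⟨i, h1⟩ else
        if h2 : cl i = 2 then s.1.1.2.2 ⟨i, h2⟩ else s.2 ⟨i, h0, h1, h2⟩, by
          intro i j l hi hj hl
          have := s.1.2 ⟨i, hi⟩ ⟨j, hj⟩ ⟨l, hl⟩
          simp only [hi, hj, hl, dif_pos, one_ne_zero, OfNat.ofNat_ne_zero, dif_neg,
            not_false_eq_true, OfNat.ofNat_ne_one]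
          exact this⟩)
    rintro ⟨⟨⟨u0, u1, u2⟩, hu⟩, u3⟩ ⟨⟨⟨v0, v1, v2⟩, hv⟩, v3⟩ h
    simp only [Subtype.mk.injEq] at h
    have h0 : u0 = v0 := by
      funext ⟨i, hi⟩
      have := congrFun h i
      simpa [hi] using this
    have h1 : u1 = v1 := by
      funext ⟨i, hi⟩
      have := congrFun h i
      simpa [hi] using this
    have h2 : u2 = v2 := by
      funext ⟨i, hi⟩
      have := congrFun h i
      simpa [hi] using this
    have h3 : u3 = v3 := by
      funext ⟨i, hi⟩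
      have := congrFun h i
      simpa [hi] using this
    subst h0; subst h1; subst h2; subst h3
    rfl
  rw [Nat.card_prod] at hinj
  have hinj' : (Nat.card {p : (A0 → V) × ((A1 → V) × (A2 → V)) // ∀ i,
      (fun x (w : (A1 → V) × (A2 → V)) => ∀ j l, Tr x (w.1 j) (w.2 l)) (p.1 i) p.2} : ℝ) *
      n ^ a3 ≤ (((univ : Finset (Fin m → V)).filter (fun ω =>
        ∀ i j l, cl i = 0 → cl j = 1 → cl l = 2 → Tr (ω i) (ω j) (ω l))).card : ℝ) := by
    have : (Nat.card (A3 → V) : ℝ) = n ^ a3 := by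
      rw [Nat.card_eq_fintype_card, Fintype.card_fun]
      push_cast
      rfl
    rw [← this]
    exact_mod_cast hinj
  have hm0 : a0 ≤ m := by omega
  have hm1 : a1 ≤ m := by omega
  have hm2 : a2 ≤ m := by omega
  calc δ' ^ (m * m * m) * n ^ m ≤ ((δ' ^ a2) ^ a1) ^ a0 * n ^ m := by
        apply mul_le_mul_of_nonneg_right _ (by positivity)
        rw [← pow_mul, ← pow_mul]
        apply pow_le_pow_of_le_one hδ'0.le hδ'1
        nlinarith [Nat.mul_le_mul (Nat.mul_le_mul hm2 hm1) hm0]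
    _ = (((δ' ^ a2) ^ a1) ^ a0 * n ^ a0 * Fintype.card ((A1 → V) × (A2 → V))) * n ^ a3 := by
        rw [Fintype.card_prod, Fintype.card_fun, Fintype.card_fun]
        push_cast
        rw [← ha1, ← ha2, ← hn]
        have : n ^ m = n ^ a0 * n ^ a1 * n ^ a2 * n ^ a3 := by
          rw [← pow_add, ← pow_add, ← pow_add, hcard]
        rw [this]
        ring
    _ ≤ _ := mul_le_mul_of_nonneg_right s3 (by positivity)
    _ ≤ _ := hinj'

end MP_182bbb_co.TT.H70
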