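import Pool.Agent.Lib.MP_182bbb_co.TT.Iface

/-! Module COORD (helper70). -/

open Finset

namespace MP_182bbb_co.TT.H70

open MP_182bbb_co.H5 MP_182bbb_co.TT

open Classical in
theorem coord : COORD_S := by
  intro m V _ _ Lf d
  constructor
  · intro a a' v hva hva'
    set S := (univ : Finset (Fin m → V)).filter (fun ω => (Lf (ω a) (ω a')).card ≤ d ∧
      ω v ∈ Lf (ω a) (ω a')) with hS
    have h1 : (S ×ˢ (univ : Finset V)).card ≤ d * (univ : Finset (Fin m → V)).card := by
      apply card_le_mul_card_image_of_maps_to
        (f := fun p : (Fin m → V) × V => Function.update p.1 v p.2) (fun _ _ => mem_univ _)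
      intro ω' _
      by_cases hne : ((S ×ˢ (univ : Finset V)).filter
          (fun p => Function.update p.1 v p.2 = ω')).Nonempty
      · have hle : (Lf (ω' a) (ω' a')).card ≤ d := by
          obtain ⟨p, hp⟩ := hne
          obtain ⟨hp1, hp2⟩ := mem_filter.1 hp
          have hp3 := (mem_filter.1 (mem_product.1 hp1).1).2.1
          rw [← hp2]
          simpa [Function.update_of_ne (Ne.symm hva), Function.update_of_ne (Ne.symm hva')]
            using hp3
        refine le_trans ?_ hle
        apply card_le_card_of_injOn (fun p => p.1 v)
        · intro p hp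
          obtain ⟨hp1, hp2⟩ := mem_filter.1 hp
          have hp3 := (mem_filter.1 (mem_product.1 hp1).1).2.2
          simp only
          rw [← hp2]
          simpa [Function.update_of_ne (Ne.symm hva), Function.update_of_ne (Ne.symm hva')]
            using hp3
        · intro p hp p' hp' h
          obtain ⟨_, hp2⟩ := mem_filter.1 hp
          obtain ⟨_, hp2'⟩ := mem_filter.1 hp'
          have h2 : p.2 = p'.2 := by
            have e1 : ω' v = p.2 := by rw [← hp2]; simp
            have e2 : ω' v = p'.2 := by rw [← hp2']; simp
            rw [← e1, e2]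
          have h1 : p.1 = p'.1 := by
            funext x
            by_cases hx : x = v
            · rw [hx]; exact h
            · have e1 : ω' x = p.1 x := by rw [← hp2]; simp [hx]
              have e2 : ω' x = p'.1 x := by rw [← hp2']; simp [hx]
              rw [← e1, e2]
          exact Prod.ext h1 h2
      · rw [not_nonempty_iff_eq_empty] at hne
        rw [hne]; simp
    rw [card_product] at h1
    simpa using h1
  · intro a a' e e' haa hae hae' ha'e ha'e' L P q κ hκ hcnt
    set S := (univ : Finset (Fin m → V)).filter (fun ω => (Lf (ω e) (ω e')).card ≤ d ∧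
      P (ω a) (ω a') ∧ q ≤ (L (ω a) (ω a') ∩ Lf (ω e) (ω e')).card) with hS
    set n : ℝ := (Fintype.card V : ℝ) with hn
    have hn0 : 0 ≤ n := Nat.cast_nonneg _
    -- the map
    set g : (Fin m → V) × (V × V) → (Fin m → V) :=
      fun p => Function.update (Function.update p.1 a p.2.1) a' p.2.2 with hg
    have hga : ∀ p, g p a = p.2.1 := by
      intro p; simp [hg, haa]
    have hga' : ∀ p, g p a' = p.2.2 := by
      intro p; simp [hg]
    have hgx : ∀ p x, x ≠ a → x ≠ a' → g p x = p.1 x := by
      intro p x h1 h2; simp [hg, h1, h2]
    have hfib : ∀ ω' : Fin m → V, (((S ×ˢ (univ : Finset (V × V))).filter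
        (fun p => g p = ω')).card : ℝ) ≤ 2 ^ d * κ * n ^ 2 := by
      intro ω'
      by_cases hne : ((S ×ˢ (univ : Finset (V × V))).filter (fun p => g p = ω')).Nonempty
      · have hle : (Lf (ω' e) (ω' e')).card ≤ d := by
          obtain ⟨p, hp⟩ := hne
          obtain ⟨hp1, hp2⟩ := mem_filter.1 hp
          have hp3 := (mem_filter.1 (mem_product.1 hp1).1).2.1
          rw [← hp2, hgx p e (Ne.symm hae) (Ne.symm ha'e), hgx p e' (Ne.symm hae') (Ne.symm ha'e')]
          exact hp3
        set T := (powersetCard q (Lf (ω' e) (ω' e'))).biUnion (fun Z =>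
          (univ : Finset (V × V)).filter (fun p => P p.1 p.2 ∧ Z ⊆ L p.1 p.2)) with hT
        have hT1 : ((S ×ˢ (univ : Finset (V × V))).filter (fun p => g p = ω')).card ≤ T.card := by
          apply card_le_card_of_injOn (fun p => (p.1 a, p.1 a'))
          · intro p hp
            obtain ⟨hp1, hp2⟩ := mem_filter.1 hp
            have hp3 := (mem_filter.1 (mem_product.1 hp1).1).2
            obtain ⟨Z, hZ, hZq⟩ := exists_subset_card_eq hp3.2.2
            simp only [hT]
            refine mem_coe.2 (mem_biUnion.2 ⟨Z, mem_powersetCard.2 ⟨?_, hZq⟩, mem_filter.2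
              ⟨mem_univ _, hp3.2.1, hZ.trans inter_subset_left⟩⟩)
            rw [← hp2, hgx p e (Ne.symm hae) (Ne.symm ha'e),
              hgx p e' (Ne.symm hae') (Ne.symm ha'e')]
            exact hZ.trans inter_subset_right
          · intro p hp p' hp' h
            obtain ⟨_, hp2⟩ := mem_filter.1 hp
            obtain ⟨_, hp2'⟩ := mem_filter.1 hp'
            simp only [Prod.mk.injEq] at h
            have h2 : p.2 = p'.2 := by
              apply Prod.ext
              · rw [← hga p, ← hga p', hp2, hp2']
              · rw [← hga' p, ← hga' p', hp2, hp2']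
            have h1 : p.1 = p'.1 := by
              funext x
              by_cases hx : x = a
              · rw [hx]; exact h.1
              · by_cases hx' : x = a'
                · rw [hx']; exact h.2
                · rw [← hgx p x hx hx', ← hgx p' x hx hx', hp2, hp2']
            exact Prod.ext h1 h2
        have hT2 : (T.card : ℝ) ≤ 2 ^ d * κ * n ^ 2 := by
          have h1 : (T.card : ℝ) ≤ ∑ Z ∈ powersetCard q (Lf (ω' e) (ω' e')),
              (((univ : Finset (V × V)).filter (fun p => P p.1 p.2 ∧ Z ⊆ L p.1 p.2)).card : ℝ) := by
            have := card_biUnion_le (s := powersetCard q (Lf (ω' e) (ω' e'))) (t := fun Z =>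
              (univ : Finset (V × V)).filter (fun p => P p.1 p.2 ∧ Z ⊆ L p.1 p.2))
            exact_mod_cast this
          have h2 : ∑ Z ∈ powersetCard q (Lf (ω' e) (ω' e')),
              (((univ : Finset (V × V)).filter (fun p => P p.1 p.2 ∧ Z ⊆ L p.1 p.2)).card : ℝ) ≤
              ∑ Z ∈ powersetCard q (Lf (ω' e) (ω' e')), κ * n ^ 2 := by
            apply sum_le_sum
            intro Z hZ
            have := hcnt Z (mem_powersetCard.1 hZ).2
            unfold cnt2 at this
            refine le_trans (le_of_eq ?_) this
            congr 1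
            congr 1
            ext p
            simp
          have h3 : ((powersetCard q (Lf (ω' e) (ω' e'))).card : ℝ) ≤ 2 ^ d := by
            have h4 : (powersetCard q (Lf (ω' e) (ω' e'))).card ≤ 2 ^ d := by
              calc (powersetCard q (Lf (ω' e) (ω' e'))).card
                  ≤ ((Lf (ω' e) (ω' e')).powerset).card :=
                    card_le_card (fun Z hZ => mem_powerset.2 (mem_powersetCard.1 hZ).1)
                _ = 2 ^ (Lf (ω' e) (ω' e')).card := card_powerset _
                _ ≤ 2 ^ d := Nat.pow_le_pow_right (by norm_num) hle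
            exact_mod_cast h4
          rw [sum_const, nsmul_eq_mul] at h2
          calc (T.card : ℝ) ≤ _ := h1
            _ ≤ _ := h2
            _ ≤ 2 ^ d * (κ * n ^ 2) := by
                apply mul_le_mul_of_nonneg_right h3
                positivity
            _ = _ := by ring
        calc _ ≤ (T.card : ℝ) := by exact_mod_cast hT1
          _ ≤ _ := hT2
      · rw [not_nonempty_iff_eq_empty] at hne
        rw [hne]
        simp only [card_empty, Nat.cast_zero]
        positivity
    have hsum : ((S ×ˢ (univ : Finset (V × V))).card : ℝ) =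
        ∑ ω' : Fin m → V, (((S ×ˢ (univ : Finset (V × V))).filter
        (fun p => g p = ω')).card : ℝ) := by
      have := card_eq_sum_card_fiberwise (s := S ×ˢ (univ : Finset (V × V)))
        (t := (univ : Finset (Fin m → V))) (f := g) (fun _ _ => mem_coe.2 (mem_univ _))
      rw [this]
      push_cast
      rfl
    have hle : (S.card : ℝ) * n ^ 2 ≤ n ^ m * (2 ^ d * κ * n ^ 2) := by
      have h1 : ((S ×ˢ (univ : Finset (V × V))).card : ℝ) = S.card * n ^ 2 := by
        rw [card_product]
        push_cast
        rw [card_univ, Fintype.card_prod]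
        push_cast
        ring
      rw [← h1, hsum]
      calc _ ≤ ∑ ω' : Fin m → V, (2 ^ d * κ * n ^ 2) := sum_le_sum (fun ω' _ => hfib ω')
        _ = n ^ m * (2 ^ d * κ * n ^ 2) := by
          rw [sum_const, nsmul_eq_mul, card_univ, Fintype.card_fun]
          simp [hn]
    by_cases hn1 : n = 0
    · have hV : IsEmpty V := by
        rw [hn] at hn1
        exact Fintype.card_eq_zero_iff.1 (by exact_mod_cast hn1)
      have hSe : S = ∅ := by
        apply eq_empty_of_forall_notMem
        intro ω _
        exact hV.elim (ω a)
      rw [hSe]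
      simp only [card_empty, Nat.cast_zero]
      positivity
    · have hn2 : 0 < n ^ 2 := by positivity
      have : (S.card : ℝ) * n ^ 2 ≤ (2 ^ d * κ * n ^ m) * n ^ 2 := by
        calc _ ≤ _ := hle
          _ = _ := by ring
      exact le_of_mul_le_mul_right this hn2

end MP_182bbb_co.TT.H70
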