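import Pool.Agent.Lib.MP_182bbb_co.TT.Iface

/-! Module FIN (helper70). -/

open Finset

namespace MP_182bbb_co.TT.H70

open MP_182bbb_co.H5 MP_182bbb_co.TT

theorem fin : FIN_S := by
  intro V _ _ G N b φ L Λ hφ hL hbig hHall
  set t : Fin (2 * N + 1) → Finset V := fun e => L e \ (range (N + 2)).image φ with ht
  have key : ∀ s : Finset (Fin (2 * N + 1)), s.card ≤ (s.biUnion t).card := by
    intro s
    by_cases hs : ∀ e ∈ s, (e : ℕ) ∈ Λ
    · have h1 := hHall (s.image (fun e : Fin (2 * N + 1) => (e : ℕ))) (by
        intro x hx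
        obtain ⟨e, he, rfl⟩ := mem_image.1 hx
        exact hs e he)
      rw [card_image_of_injective _ Fin.val_injective] at h1
      refine h1.trans (card_le_card ?_)
      intro x hx
      obtain ⟨e, he, hx⟩ := mem_biUnion.1 hx
      obtain ⟨e', he', rfl⟩ := mem_image.1 he
      exact mem_biUnion.2 ⟨e', he', hx⟩
    · push Not at hs
      obtain ⟨e, hes, heΛ⟩ := hs
      have h2 : 3 * N + 3 ≤ (L e).card := hbig e (by omega) heΛ
      have h3 : ((range (N + 2)).image φ).card ≤ N + 2 := by
        refine card_image_le.trans ?_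
        simp
      have h4 : (L e).card ≤ (t e).card + ((range (N + 2)).image φ).card := by
        rw [ht]
        exact card_le_card_sdiff_add_card
      have h5 : s.card ≤ 2 * N + 1 := by
        have := card_le_univ s
        simpa using this
      have h6 : (t e).card ≤ (s.biUnion t).card := by
        apply card_le_card
        intro x hx
        exact mem_biUnion.2 ⟨e, hes, hx⟩
      omega
  obtain ⟨f, hf, hft⟩ := (Finset.all_card_le_biUnion_card_iff_exists_injective t).1 key
  refine ⟨φ, fun e => if h : e < 2 * N + 1 then f ⟨e, h⟩ else φ 0, hφ, ?_, ?_, ?_⟩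
  · intro e he e' he' hee
    have h1 : e < 2 * N + 1 := by simp at he; omega
    have h2 : e' < 2 * N + 1 := by simp at he'; omega
    simp only [h1, h2, dif_pos] at hee
    have := hf hee
    simpa using this
  · intro v hv e he hve
    have h1 : e < 2 * N + 1 := by omega
    simp only [h1, dif_pos] at hve
    have h2 := hft ⟨e, h1⟩
    rw [ht] at h2
    have h3 := (mem_sdiff.1 h2).2
    apply h3
    rw [← hve]
    exact mem_image.2 ⟨v, by simp; omega, rfl⟩
  · intro e he
    have h1 : e < 2 * N + 1 := by omega
    simp only [h1, dif_pos]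
    have h2 := hft ⟨e, h1⟩
    rw [ht] at h2
    exact hL e he (mem_sdiff.1 h2).1

end MP_182bbb_co.TT.H70
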